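import Mathlib

set_option autoImplicit false

namespace Pool.Agent.Results.MP_e2735d_co.WholeInterval

open Filter Topology

/-- strict endomorphisms of a graph given by its adjacency relation (loops allowed) -/
def End {V : Type} (G : V → V → Prop) : Type := {f : V → V // ∀ x y, G x y → G (f x) (f y)}

/-- automorphisms -/
def Aut {V : Type} (G : V → V → Prop) : Type :=
  {σ : Equiv.Perm V // ∀ x y, G (σ x) (σ y) ↔ G x y}

/-- `q(G) = |Aut(G)| / |End_s(G)|` -/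
noncomputable def q {V : Type} (G : V → V → Prop) : ℝ := Nat.card (Aut G) / Nat.card (End G)

/-- the limiting set `Λ` -/
def Lam : Set ℝ := {l | ∃ (V : ℕ → Type) (G : ∀ k, V k → V k → Prop),
  (∀ k, Finite (V k)) ∧ (∀ k x y, G k x y → G k y x) ∧
  Tendsto (fun k => Nat.card (V k)) atTop atTop ∧ Tendsto (fun k => q (G k)) atTop (𝓝 l)}

def ra (a b : Fin 10) : Bool :=
  a.1 != b.1 && (a.1 ≤ b.1 + 2 && b.1 ≤ a.1 + 2 || a.1 + b.1 == 9 && a.1 * b.1 == 0 ||
    a.1 + b.1 == 13 && a.1 * b.1 == 36)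

def all10 (P : Fin 10 → Bool) : Bool := (List.finRange 10).all P

def rigB : Bool := all10 fun a0 => all10 fun a1 => !ra a0 a1 || all10 fun a2 =>
  !(ra a0 a2 && ra a1 a2) || all10 fun a3 => !(ra a1 a3 && ra a2 a3) || all10 fun a4 =>
  !(ra a2 a4 && ra a3 a4) || all10 fun a5 => !(ra a3 a5 && ra a4 a5) || all10 fun a6 =>
  !(ra a4 a6 && ra a5 a6) || all10 fun a7 => !(ra a5 a7 && ra a6 a7) || all10 fun a8 =>
  !(ra a6 a8 && ra a7 a8) || all10 fun a9 => !(ra a7 a9 && ra a8 a9 && ra a0 a9 && ra a4 a9) ||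
  [a0, a1, a2, a3, a4, a5, a6, a7, a8, a9] == [0, 1, 2, 3, 4, 5, 6, 7, 8, 9]

theorem rigid (g : Fin 10 → Fin 10) (h : ∀ a b, ra a b = true → ra (g a) (g b) = true) (a : Fin 10) :
    g a = a := by
  have e : rigB = true := by decide +kernel
  simp only [rigB, all10, List.all_eq_true, List.mem_finRange, true_implies, Bool.or_eq_true,
    Bool.not_eq_true', ← Bool.not_eq_true, ← imp_iff_not_or, Bool.and_eq_true, beq_iff_eq] at e
  have := e _ _ (h 0 1 rfl) _ ⟨h 0 2 rfl, h 1 2 rfl⟩ _ ⟨h 1 3 rfl, h 2 3 rfl⟩ _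
    ⟨h 2 4 rfl, h 3 4 rfl⟩ _ ⟨h 3 5 rfl, h 4 5 rfl⟩ _ ⟨h 4 6 rfl, h 5 6 rfl⟩ _
    ⟨h 5 7 rfl, h 6 7 rfl⟩ _ ⟨h 6 8 rfl, h 7 8 rfl⟩ _
    ⟨⟨⟨h 7 9 rfl, h 8 9 rfl⟩, h 0 9 rfl⟩, h 4 9 rfl⟩
  simp only [List.cons.injEq] at this
  fin_cases a <;> simp [this]

abbrev O (p b : ℕ) : Type := ZMod (p + 2) ⊕ Fin b

abbrev W (p b : ℕ) : Type := Fin 10 ⊕ O p b × Fin 4

variable {p b : ℕ}

instance : Fact (1 < p + 2) := ⟨by omega⟩

def nxt : O p b → O p b
  | .inl i => .inl (i + 1)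
  | .inr j => .inr j

def lk : O p b → O p b → Prop
  | .inr j, .inr j' => j.1 + 1 = j'.1
  | _, _ => False

def e (u v : O p b × Fin 4) : Prop := (u.2.1 + 1 = v.2.1 ∧ v.1 = u.1) ∨
  (u.2.1 = 3 ∧ v.2.1 = 0 ∧ v.1 = nxt u.1) ∨ (u.2.1 = 0 ∧ v.2.1 = 2 ∧ lk u.1 v.1)

def G (p b : ℕ) : W p b → W p b → Prop
  | .inl a, .inl a' => ra a a' = true
  | .inl a, .inr v => a.1 = v.2.1 ∨ a.1 = v.2.1 + 5
  | .inr v, .inl a => a.1 = v.2.1 ∨ a.1 = v.2.1 + 5
  | .inr u, .inr v => e u v ∨ e v u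

theorem G_symm (x y : W p b) : G p b x y → G p b y x := by
  rcases x with a | u <;> rcases y with a' | v
  · exact (by decide : ∀ a a', ra a a' = true → ra a' a = true) a a'
  · exact id
  · exact id
  · exact Or.symm

theorem lk_irr (o : O p b) : ¬ lk o o ∧ ¬ lk (nxt o) o := by
  rcases o with i | j <;> simp [lk, nxt]

theorem tri (u : O p b × Fin 4) (x y : W p b) (h1 : G p b (.inr u) x) (h2 : G p b (.inr u) y) :
    ¬ G p b x y := by
  rcases x with a | v <;> rcases y with a' | w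
  · exact (by decide : ∀ (c : Fin 4) (a a' : Fin 10), (a.1 = c.1 ∨ a.1 = c.1 + 5) →
      (a'.1 = c.1 ∨ a'.1 = c.1 + 5) → ¬ ra a a' = true) u.2 a a' h1 h2
  · simp only [G, e] at *; omega
  · simp only [G, e] at *; omega
  · obtain ⟨o, c⟩ := u
    obtain ⟨o', c'⟩ := v
    obtain ⟨o'', c''⟩ := w
    simp only [G, e] at *
    rintro ((⟨k, k'⟩ | ⟨k, k', k''⟩ | ⟨k, k', k''⟩) | (⟨k, k'⟩ | ⟨k, k', k''⟩ | ⟨k, k', k''⟩)) <;>
    rcases h1 with ((⟨l, l'⟩ | ⟨l, l', l''⟩ | ⟨l, l', l''⟩) | (⟨l, l'⟩ | ⟨l, l', l''⟩ |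
      ⟨l, l', l''⟩)) <;>
    rcases h2 with ((⟨m, m'⟩ | ⟨m, m', m''⟩ | ⟨m, m', m''⟩) | (⟨m, m'⟩ | ⟨m, m', m''⟩ |
      ⟨m, m', m''⟩)) <;>
    first
      | omega
      | (subst_vars; simp_all [lk_irr])

def sh : O p b → O p b → O p b
  | _, .inr j => .inr j
  | .inl s, .inl i => .inl (i + s)
  | .inr j, .inl _ => .inr j

def F (t : O p b) : W p b → W p b
  | .inl a => .inl a
  | .inr u => .inr (sh t u.1, u.2)

theorem F_hom (t : O p b) (x y : W p b) : G p b x y → G p b (F t x) (F t y) := by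
  have : ∀ u v : O p b × Fin 4, e u v → e (sh t u.1, u.2) (sh t v.1, v.2) := by
    rintro ⟨o, c⟩ ⟨o', c'⟩ (⟨h, rfl⟩ | ⟨h, h', rfl⟩ | ⟨h, h', k⟩)
    · exact Or.inl ⟨h, rfl⟩
    · refine Or.inr (Or.inl ⟨h, h', ?_⟩)
      rcases t with s | j <;> rcases o with i | j' <;> simp [sh, nxt, add_right_comm]
    · refine Or.inr (Or.inr ⟨h, h', ?_⟩)
      rcases o with i | j' <;> rcases o' with i' | j'' <;> simp_all [sh, lk]
  rcases x with a | u <;> rcases y with a' | v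
  exacts [id, id, id, Or.imp (this _ _) (this _ _)]

theorem classify (f : W p b → W p b) (hf : ∀ x y, G p b x y → G p b (f x) (f y)) :
    ∃ t, f = F t := by
  have h1 : ∀ a, ∃ a', f (.inl a) = .inl a' := fun a => by
    obtain ⟨x, y, k1, k2, k3⟩ := (by decide +kernel : ∀ a, ∃ x y, ra a x = true ∧ ra a y = true ∧
      ra x y = true) a
    rcases h : f (.inl a) with a' | u
    · exact ⟨a', rfl⟩
    · exact absurd (hf (.inl x) (.inl y) k3)
        (tri u _ _ (h ▸ hf (.inl a) (.inl x) k1) (h ▸ hf (.inl a) (.inl y) k2))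
  choose g hg using h1
  have h2 : ∀ a, f (.inl a) = .inl a := fun a => by
    rw [hg, rigid g fun a a' h => by
      have := hf (.inl a) (.inl a') h
      rwa [hg, hg] at this]
  have h3 : ∀ o c, ∃ o', f (.inr (o, c)) = .inr (o', c) := fun o c => by
    have k1 := hf (.inl ⟨c, by omega⟩) (.inr (o, c)) (Or.inl rfl)
    have k2 := hf (.inl ⟨c + 5, by omega⟩) (.inr (o, c)) (Or.inr rfl)
    rw [h2] at k1 k2
    rcases h : f (.inr (o, c)) with a | ⟨o', c'⟩ <;> rw [h] at k1 k2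
    · exact absurd k2 ((by decide +kernel : ∀ (c : Fin 4) (a : Fin 10),
        ra ⟨c, by omega⟩ a = true → ¬ ra ⟨c + 5, by omega⟩ a = true) c a k1)
    · simp only [G] at k1 k2
      exact ⟨o', by rw [show c' = c by omega]⟩
  choose γ hγ using h3
  have h4 : ∀ o c o' c', e (o, c) (o', c') → e (γ o c, c) (γ o' c', c') ∨
      e (γ o' c', c') (γ o c, c) := fun o c o' c' h => by
    have := hf (.inr (o, c)) (.inr (o', c')) (Or.inl h)
    rwa [hγ, hγ] at this
  have h5 : ∀ o c, γ o c = γ o 0 := fun o c => by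
    have k1 := h4 o 0 o 1 (Or.inl ⟨rfl, rfl⟩)
    have k2 := h4 o 1 o 2 (Or.inl ⟨rfl, rfl⟩)
    have k3 := h4 o 2 o 3 (Or.inl ⟨rfl, rfl⟩)
    simp [e] at k1 k2 k3
    fin_cases c <;> simp [k1, k2, k3]
  have h6 : ∀ o, γ (nxt o) 0 = nxt (γ o 0) := fun o => by
    simpa [e, h5 o 3] using h4 o 3 (nxt o) 0 (Or.inr (Or.inl ⟨rfl, rfl, rfl⟩))
  have h7 : ∀ o o', lk o o' → lk (γ o 0) (γ o' 0) := fun o o' h => by
    simpa [e, h5 o' 2] using h4 o 0 o' 2 (Or.inr (Or.inr ⟨rfl, rfl, h⟩))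
  have h8 : ∀ j, ∃ j', γ (.inr j) 0 = .inr j' := fun j => by
    have := h6 (.inr j)
    rcases h : γ (.inr j) 0 with i | j'
    · simp [nxt, h] at this
    · exact ⟨j', rfl⟩
  choose η hη using h8
  have h9 : StrictMono η := by
    rcases b with _ | b
    · exact fun j => j.elim0
    refine Fin.strictMono_iff_lt_succ.2 fun j => ?_
    have := h7 (.inr j.castSucc) (.inr j.succ) rfl
    rw [hη, hη] at this
    exact Fin.lt_def.2 (le_of_eq this)
  have h10 : ∀ n : ℕ, γ (.inl n) 0 = sh (γ (.inl 0) 0) (.inl n) := fun n => by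
    induction n with
    | zero => rcases h : γ (.inl 0) 0 with s | j <;> simp [sh]
    | succ n ih =>
      have := h6 (.inl n)
      rw [ih] at this
      rw [Nat.cast_succ]
      refine Eq.trans this ?_
      rcases γ (.inl 0) 0 with s | j <;> simp [sh, nxt, add_right_comm]
  refine ⟨γ (.inl 0) 0, funext ?_⟩
  rintro (a | ⟨i | j, c⟩)
  · exact h2 a
  · rw [hγ, h5, ← ZMod.natCast_zmod_val i, h10]; rfl
  · rw [hγ, h5, hη, h9.apply_eq]; rfl

theorem F_inj {t t' : O p b} (h : F t = F t') : t = t' := by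
  have := congrFun h (.inr (.inl 0, 0))
  rcases t with s | j <;> rcases t' with s' | j' <;> simpa [F, sh] using this

theorem card_End : Nat.card (End (G p b)) = p + 2 + b := by
  rw [← Nat.card_eq_of_bijective (β := End (G p b)) (fun t : O p b => (⟨F t, F_hom t⟩ : End (G p b)))
    ⟨fun _ _ h => F_inj (congrArg Subtype.val h), fun f => by
      obtain ⟨t, ht⟩ := classify f.1 f.2
      exact ⟨t, Subtype.ext ht.symm⟩⟩]
  simp

theorem F_F (s s' : ZMod (p + 2)) (h : s' + s = 0) (x : W p b) :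
    F (.inl s) (F (.inl s') x) = x := by
  rcases x with a | ⟨i | j, c⟩ <;> simp [F, sh, add_assoc, h]

def rot (s : ZMod (p + 2)) : Aut (G p b) :=
  ⟨⟨F (.inl s), F (.inl (-s)), F_F _ _ (by simp), F_F _ _ (by simp)⟩, fun x y =>
    ⟨fun h => by
      have := F_hom (.inl (-s)) _ _ h
      rwa [Equiv.coe_fn_mk, F_F _ _ (by simp), F_F _ _ (by simp)] at this, F_hom _ _ _⟩⟩

theorem card_Aut : Nat.card (Aut (G p b)) = p + 2 := by
  rw [← Nat.card_eq_of_bijective (rot (p := p) (b := b))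
    ⟨fun _ _ h => Sum.inl_injective (F_inj (congrArg (fun σ : Aut (G p b) => ⇑σ.1) h)), fun σ => by
      obtain ⟨s | j, ht⟩ := classify σ.1 fun x y => (σ.2 x y).2
      · exact ⟨s, Subtype.ext (Equiv.ext fun x => (congrFun ht x).symm)⟩
      · have := σ.1.injective (a₁ := .inr (.inl 0, 0)) (a₂ := .inr (.inl 1, 0)) (by rw [ht]; rfl)
        simp at this⟩]
  simp

theorem result : Lam = Set.Icc 0 1 := by
  ext l
  constructor
  · rintro ⟨V, H, hV, -, -, h⟩
    refine isClosed_Icc.mem_of_tendsto h (Eventually.of_forall fun k => ⟨by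
      unfold q; positivity, div_le_one_of_le₀ ?_ (by positivity)⟩)
    have : Finite (End (H k)) := inferInstanceAs (Finite {f : V k → V k // _})
    exact_mod_cast Nat.card_le_card_of_injective
      (fun σ : Aut (H k) => (⟨σ.1, fun x y => (σ.2 x y).2⟩ : End (H k))) fun σ τ e =>
        Subtype.ext (Equiv.coe_fn_injective (congrArg Subtype.val e))
  · rintro ⟨h0, h1⟩
    have hk : ∀ k : ℕ, ⌊l * k⌋₊ ≤ k := fun k => Nat.floor_le_of_le (by
      nlinarith [Nat.cast_nonneg (α := ℝ) k])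
    refine ⟨fun k => W ⌊l * k⌋₊ (k - ⌊l * k⌋₊), fun k => G _ _, fun k => inferInstance,
      fun k => G_symm, tendsto_atTop_mono (fun k => ?_) tendsto_id, ?_⟩
    · have := hk k
      simp
      omega
    · have t : Tendsto (fun k : ℕ => ((k : ℝ) + 2)⁻¹) atTop (𝓝 0) :=
        (tendsto_atTop_add_const_right _ _ tendsto_natCast_atTop_atTop).inv_tendsto_atTop
      have e : ∀ k : ℕ, q (G ⌊l * k⌋₊ (k - ⌊l * k⌋₊)) = (⌊l * k⌋₊ + 2) / (k + 2) := fun k => by
        rw [q, card_Aut, card_End, show ⌊l * k⌋₊ + 2 + (k - ⌊l * k⌋₊) = k + 2 by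
          have := hk k; omega]
        push_cast
        rfl
      simp only [e]
      refine tendsto_of_tendsto_of_tendsto_of_le_of_le (g := fun k : ℕ => l - 2 * ((k : ℝ) + 2)⁻¹)
        (h := fun k : ℕ => l + 2 * ((k : ℝ) + 2)⁻¹) (by simpa using (t.const_mul 2).const_sub l)
        (by simpa using (t.const_mul 2).const_add l) (fun k => ?_) fun k => ?_
      · have := Nat.lt_floor_add_one (l * k)
        rw [le_div_iff₀ (by positivity), sub_mul, mul_assoc, inv_mul_cancel₀ (by positivity)]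
        linarith
      · have := Nat.floor_le (show 0 ≤ l * k by positivity)
        rw [div_le_iff₀ (by positivity), add_mul, mul_assoc, inv_mul_cancel₀ (by positivity)]
        linarith

end Pool.Agent.Results.MP_e2735d_co.WholeInterval
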